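import Pool.Agent.ABY.Stmts

/-!
# Row VFR of tank ABY: freezing sites does not increase the invariant
-/

set_option autoImplicit false

open scoped BigOperators Matrix

noncomputable section

namespace Pool.Agent.ABY.H13

open Pool.Agent.LE.QF Pool.Agent.AFJ Pool.Agent.ABY

variable {X : Type} [Fintype X] [DecidableEq X]

theorem dif {𝕜 : Type} [RCLike 𝕜] (M : Matrix X X 𝕜) (P w : X → ℝ) (N : Finset X)
    (be be' : X → 𝕜) (h : ∀ a, be a = ∑ b, M a b * psi P w be b)
    (h' : ∀ a, be' a = ∑ b, M a b * psi (fun x => (1 - ind N x) * P x)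
      (fun x => (1 - ind N x) * w x) be' b) (a : X) :
    (be a - be' a) - ∑ b, M a b * ((((1 - ind N b) * P b : ℝ) : 𝕜) * (be b - be' b)) =
      ∑ b, M a b * (((ind N b : ℝ) : 𝕜) * psi P w be b) := by
  have e : be a - be' a = ∑ b, M a b * psi P w be b - ∑ b, M a b * psi (fun x => (1 - ind N x) * P x)
      (fun x => (1 - ind N x) * w x) be' b := by
    rw [← h a, ← h' a]
  rw [e, ← Finset.sum_sub_distrib, ← Finset.sum_sub_distrib]
  refine Finset.sum_congr rfl fun b _ => ?_
  unfold psi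
  push_cast
  ring

theorem vfr : VfrStmt := by
  intro hC hV X _ _ G P w g U R N ρ hc hN hw a ha
  have hK0 : ∀ a b, 0 ≤ KK G a b := fun a b => (norm_nonneg _).trans (hc.hM a b)
  have hi : ∀ x, 0 ≤ ind N x ∧ ind N x ≤ 1 := by
    intro x
    unfold ind
    split_ifs <;> norm_num
  have hc' : Cmp (BB G) (KK G) (fun x => (1 - ind N x) * P x) g U R ρ := by
    refine ⟨hc.hM, ⟨fun x => mul_nonneg (by linarith [(hi x).2]) (hc.hP.1 x), fun x hx => ?_⟩,
      hc.hU, hc.hg, hc.hρ, fun a ha => le_trans (Finset.sum_le_sum fun b _ => ?_) (hc.hK a ha)⟩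
    · show (1 - ind N x) * P x = 0
      rw [hc.hP.2 x hx, mul_zero]
    · by_cases hb : b ∈ U
      · have hgb := hc.hg b (hc.hU hb)
        refine mul_le_mul_of_nonneg_right (mul_le_mul_of_nonneg_left ?_ (hK0 a b)) hgb.le
        nlinarith [hc.hP.1 b, hi b]
      · show KK G a b * ((1 - ind N b) * P b) * g b ≤ KK G a b * P b * g b
        rw [hc.hP.2 b hb]
        simp
  have hcK : Cmp (KK G) (KK G) P g U R ρ :=
    ⟨fun a b => by rw [Real.norm_of_nonneg (hK0 a b)], hc.hP, hc.hU, hc.hg, hc.hρ, hc.hK⟩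
  have hcK' : Cmp (KK G) (KK G) (fun x => (1 - ind N x) * P x) g U R ρ :=
    ⟨fun a b => by rw [Real.norm_of_nonneg (hK0 a b)], hc'.hP, hc.hU, hc.hg, hc.hρ, hc'.hK⟩
  obtain ⟨_, v2, _, _, v5⟩ := hV hC ℂ X (BB G) (KK G) P g U R ρ hc
  obtain ⟨_, v2', _, _, _⟩ := hV hC ℂ X (BB G) (KK G) _ g U R ρ hc'
  obtain ⟨_, k2, _, _, _⟩ := hV hC ℝ X (KK G) (KK G) P g U R ρ hcK
  obtain ⟨_, k2', _, _, _⟩ := hV hC ℝ X (KK G) (KK G) _ g U R ρ hcK'
  have d1 := dif (BB G) P w N (vir (BB G) P w)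
    (vir (BB G) (fun x => (1 - ind N x) * P x) (fun x => (1 - ind N x) * w x)) (v2 w)
    (v2' (fun x => (1 - ind N x) * w x))
  have d2 := dif (KK G) P w N (vir (KK G) P w)
    (vir (KK G) (fun x => (1 - ind N x) * P x) (fun x => (1 - ind N x) * w x)) (k2 w)
    (k2' (fun x => (1 - ind N x) * w x))
  have hR := (hC ℂ X (BB G) (KK G) _ g U R ρ hc').2
    (fun a => vir (BB G) P w a -
      vir (BB G) (fun x => (1 - ind N x) * P x) (fun x => (1 - ind N x) * w x) a)
    (fun a => vir (KK G) P w a -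
      vir (KK G) (fun x => (1 - ind N x) * P x) (fun x => (1 - ind N x) * w x) a) (by
    intro a ha
    rw [d1 a]
    have d3 := d2 a
    simp only [RCLike.ofReal_real_eq_id, id] at d3
    rw [d3]
    refine (norm_sum_le _ _).trans (Finset.sum_le_sum fun b _ => ?_)
    rw [norm_mul, norm_mul]
    have e1 : ‖(RCLike.ofReal (ind N b) : ℂ)‖ = ind N b := by
      rw [RCLike.norm_ofReal, abs_of_nonneg (hi b).1]
    have e2 : ‖psi P w (vir (BB G) P w) b‖ ≤ psi P w (vir (KK G) P w) b := by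
      unfold psi
      refine (norm_add_le _ _).trans ?_
      rw [norm_mul, RCLike.norm_ofReal, RCLike.norm_ofReal, abs_of_nonneg (hw b),
        abs_of_nonneg (hc.hP.1 b)]
      simp only [RCLike.ofReal_real_eq_id, id]
      by_cases hb : b ∈ R
      · have := mul_le_mul_of_nonneg_left (v5 w hw b hb) (hc.hP.1 b)
        linarith
      · rw [hc.hP.2 b (fun h => hb (hc.hU h))]
        simp
    refine mul_le_mul (hc.hM a b) ?_ (by positivity) (hK0 a b)
    rw [e1]
    exact mul_le_mul_of_nonneg_left e2 (hi b).1) a ha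
  have hT : ‖vir (BB G) (fun x => (1 - ind N x) * P x) (fun x => (1 - ind N x) * w x) a‖ ≤
      ‖vir (BB G) P w a‖ + ‖vir (BB G) P w a -
        vir (BB G) (fun x => (1 - ind N x) * P x) (fun x => (1 - ind N x) * w x) a‖ := by
    have e3 : vir (BB G) (fun x => (1 - ind N x) * P x) (fun x => (1 - ind N x) * w x) a =
        vir (BB G) P w a - (vir (BB G) P w a -
        vir (BB G) (fun x => (1 - ind N x) * P x) (fun x => (1 - ind N x) * w x) a) := by ring
    conv_lhs => rw [e3]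
    exact norm_sub_le _ _
  linarith

end Pool.Agent.ABY.H13
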